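import Pool.Agent.helper29.JZ.Spec

/-!
# Row jz:ROT (MP_3221a1_ag): choice of roots of unity
-/

set_option autoImplicit false

open Finset

namespace Pool.Agent.helper82.JZ

open Pool.Agent.helper29.JZ

/-- the number of points of the same row in smaller columns -/
def ROT_t {h h' : ℕ} (S : Finset (Fin h × Fin h')) (z : Fin h × Fin h') : ℕ :=
  (S.filter fun w => w.1 < z.1 ∧ w.2 = z.2).card

theorem ROT_lt {h h' : ℕ} (S : Finset (Fin h × Fin h')) (a : ℕ)
    (ha : ∀ m, (S.filter fun z => z.2 = m).card ≤ a) (z : Fin h × Fin h') (hz : z ∈ S) : ROT_t S z < a := by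
  refine lt_of_lt_of_le (card_lt_card ?_) (ha z.2)
  rw [ssubset_iff_of_subset]
  · refine ⟨z, mem_filter.2 ⟨hz, rfl⟩, ?_⟩
    intro hc
    exact lt_irrefl _ (mem_filter.1 hc).2.1
  · intro w hw
    rw [mem_filter] at hw ⊢
    exact ⟨hw.1, hw.2.2⟩

theorem ROT_mono {h h' : ℕ} (S : Finset (Fin h × Fin h')) (z z' : Fin h × Fin h') (hz : z ∈ S)
    (hr : z.2 = z'.2) (hlt : z.1 < z'.1) : ROT_t S z < ROT_t S z' := by
  apply card_lt_card
  rw [ssubset_iff_of_subset]
  · refine ⟨z, mem_filter.2 ⟨hz, hlt, hr⟩, ?_⟩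
    intro hc
    exact lt_irrefl _ (mem_filter.1 hc).2.1
  · intro w hw
    rw [mem_filter] at hw ⊢
    exact ⟨hw.1, hw.2.1.trans hlt, hw.2.2.trans hr⟩

theorem jz_ROT : ROT_stmt := by
  classical
  intro h h' a S ha hcol hrow
  have ha0 : a ≠ 0 := by omega
  have hζ := Complex.isPrimitiveRoot_exp a ha0
  set ζ : ℂ := Complex.exp (2 * Real.pi * Complex.I / a) with hζd
  have key : ∀ z ∈ S, (if hk : ∃ w ∈ S, w.1 = z.1 then ζ ^ ROT_t S hk.choose else 1) = ζ ^ ROT_t S z := by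
    intro z hz
    have hk : ∃ w ∈ S, w.1 = z.1 := ⟨z, hz, rfl⟩
    rw [dif_pos hk]
    have h1 := hk.choose_spec
    rw [hcol _ h1.1 z hz h1.2]
  refine ⟨fun k => if hk : ∃ w ∈ S, w.1 = k then ζ ^ ROT_t S hk.choose else 1, ?_, ?_⟩
  · intro k
    dsimp only
    split_ifs
    · rw [← pow_mul, mul_comm, pow_mul, hζ.pow_eq_one, one_pow]
    · exact one_pow a
  · intro z hz z' hz' hr he
    dsimp only at he
    rw [key z hz, key z' hz'] at he
    have ht := hζ.pow_inj (ROT_lt S a hrow z hz) (ROT_lt S a hrow z' hz') he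
    rcases lt_trichotomy z.1 z'.1 with h1 | h1 | h1
    · have := ROT_mono S z z' hz hr h1
      omega
    · exact hcol z hz z' hz' h1
    · have := ROT_mono S z' z hz' hr.symm h1
      omega

end Pool.Agent.helper82.JZ
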